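import Mathlib

set_option autoImplicit false

/-!
# From dyadic windows to intervals, and from one order to all larger orders
-/

namespace Pool.Agent.K3h80.LAG

open MeasureTheory Set Filter Topology

theorem cover {T t : ℝ} (ht0 : 0 < t) (htT : t ≤ T) :
    ∃ k : ℕ, T / 2 ^ k / 2 ≤ t ∧ t ≤ 3 * (T / 2 ^ k) := by
  have hT : 0 < T := by linarith
  obtain ⟨k, hk1, hk2⟩ := exists_nat_pow_near (x := T / t) (y := 2)
    (by rw [le_div_iff₀ ht0]; linarith) (by norm_num)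
  rw [le_div_iff₀ ht0] at hk1
  rw [div_lt_iff₀ ht0] at hk2
  have h2 : (0 : ℝ) < 2 ^ k := by positivity
  refine ⟨k, ?_, ?_⟩
  · rw [div_div, div_le_iff₀ (by positivity)]
    rw [pow_succ] at hk2
    linarith
  · have h3 : t ≤ T / 2 ^ k := by
      rw [le_div_iff₀ h2]; linarith
    have h4 : 0 < T / 2 ^ k := by positivity
    linarith

theorem union_bound {L : ℕ → ℝ → ℝ} {c C : ℝ} {n0 : ℕ} (hc : 0 < c) (hC : 0 < C)
    (hw : ∀ (T : ℝ) (n : ℕ), 0 < T → n0 ≤ n →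
      volume {t : ℝ | T / 2 ≤ t ∧ t ≤ 3 * T ∧ L n t ≤ 0} ≤ ENNReal.ofReal (C * T * Real.exp (-(c * n)))) :
    ∃ C' : ℝ, 0 < C' ∧ ∀ (n : ℕ) (T : ℝ), 0 ≤ T →
      volume {x : ℝ | 0 ≤ x ∧ x ≤ T ∧ ∃ m : ℕ, n ≤ m ∧ L m x ≤ 0} ≤
        ENNReal.ofReal (C' * Real.exp (-(c * n)) * T) := by
  have hq0 : 0 < Real.exp (-c) := Real.exp_pos _
  have hq1 : Real.exp (-c) < 1 := by
    have h := Real.exp_lt_exp.2 (show -c < 0 by linarith)
    rwa [Real.exp_zero] at h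
  have hq2 : 0 < (1 - Real.exp (-c))⁻¹ := inv_pos.2 (by linarith)
  obtain ⟨D, hD⟩ : ∃ D : ℝ, D = C * 2 * (1 - Real.exp (-c))⁻¹ := ⟨_, rfl⟩
  have hD0 : 0 < D := by rw [hD]; positivity
  refine ⟨max D (Real.exp (c * n0)), lt_max_of_lt_left hD0, fun n T hT => ?_⟩
  rcases hT.eq_or_lt with h0 | hT0
  · rw [← h0]
    have : volume {x : ℝ | 0 ≤ x ∧ x ≤ 0 ∧ ∃ m : ℕ, n ≤ m ∧ L m x ≤ 0} ≤ volume ({0} : Set ℝ) :=
      measure_mono fun x hx => le_antisymm hx.2.1 hx.1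
    refine this.trans ?_
    simp
  rcases lt_or_ge n n0 with hn | hn
  · have h1 : volume {x : ℝ | 0 ≤ x ∧ x ≤ T ∧ ∃ m : ℕ, n ≤ m ∧ L m x ≤ 0} ≤ volume (Icc 0 T) :=
      measure_mono fun x hx => ⟨hx.1, hx.2.1⟩
    refine h1.trans ?_
    rw [Real.volume_Icc, sub_zero]
    refine ENNReal.ofReal_le_ofReal ?_
    have h2 : 1 ≤ max D (Real.exp (c * n0)) * Real.exp (-(c * n)) := by
      calc (1 : ℝ) ≤ Real.exp (c * n0) * Real.exp (-(c * n)) := by
            rw [← Real.exp_add]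
            apply Real.one_le_exp
            have : (n : ℝ) ≤ n0 := by exact_mod_cast hn.le
            nlinarith
        _ ≤ _ := mul_le_mul_of_nonneg_right (le_max_right _ _) (Real.exp_pos _).le
    nlinarith
  have hsub : {x : ℝ | 0 ≤ x ∧ x ≤ T ∧ ∃ m : ℕ, n ≤ m ∧ L m x ≤ 0} ⊆
      {0} ∪ ⋃ j : ℕ, ⋃ k : ℕ, {t : ℝ | T / 2 ^ k / 2 ≤ t ∧ t ≤ 3 * (T / 2 ^ k) ∧ L (n + j) t ≤ 0} := by
    rintro x ⟨hx0, hxT, m, hm, hL⟩
    rcases hx0.eq_or_lt with h0 | h0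
    · left; exact h0.symm
    · right
      obtain ⟨j, rfl⟩ := Nat.exists_eq_add_of_le hm
      obtain ⟨k, hk1, hk2⟩ := cover h0 hxT
      exact Set.mem_iUnion.2 ⟨j, Set.mem_iUnion.2 ⟨k, hk1, hk2, hL⟩⟩
  refine (measure_mono hsub).trans ((measure_union_le _ _).trans ?_)
  rw [Real.volume_singleton, zero_add]
  have h1 : ∀ j k : ℕ, volume {t : ℝ | T / 2 ^ k / 2 ≤ t ∧ t ≤ 3 * (T / 2 ^ k) ∧ L (n + j) t ≤ 0} ≤
      ENNReal.ofReal (C * T * Real.exp (-(c * n))) * (ENNReal.ofReal (Real.exp (-c) ^ j) *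
        ENNReal.ofReal ((1 / 2) ^ k)) := by
    intro j k
    refine (hw (T / 2 ^ k) (n + j) (by positivity) (by omega)).trans (le_of_eq ?_)
    rw [← ENNReal.ofReal_mul (by positivity), ← ENNReal.ofReal_mul (by positivity)]
    congr 1
    push_cast
    rw [← Real.exp_nat_mul]
    have h2 : Real.exp (-(c * (n + j))) = Real.exp (-(c * n)) * Real.exp (j * -c) := by
      rw [← Real.exp_add]; congr 1; ring
    rw [h2, one_div, inv_pow]
    ring
  calc volume (⋃ j : ℕ, ⋃ k : ℕ, {t : ℝ | T / 2 ^ k / 2 ≤ t ∧ t ≤ 3 * (T / 2 ^ k) ∧ L (n + j) t ≤ 0})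
      ≤ ∑' j : ℕ, ∑' k : ℕ, ENNReal.ofReal (C * T * Real.exp (-(c * n))) *
          (ENNReal.ofReal (Real.exp (-c) ^ j) * ENNReal.ofReal ((1 / 2) ^ k)) :=
        (measure_iUnion_le _).trans (ENNReal.tsum_le_tsum fun j =>
          (measure_iUnion_le _).trans (ENNReal.tsum_le_tsum fun k => h1 j k))
    _ = ENNReal.ofReal (C * T * Real.exp (-(c * n))) *
          (ENNReal.ofReal ((1 - Real.exp (-c))⁻¹) * ENNReal.ofReal 2) := by
        have h3 : ∑' k : ℕ, ENNReal.ofReal ((1 / 2) ^ k) = ENNReal.ofReal 2 := by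
          rw [← ENNReal.ofReal_tsum_of_nonneg (fun k => by positivity) summable_geometric_two,
            tsum_geometric_two]
        have h4 : ∑' j : ℕ, ENNReal.ofReal (Real.exp (-c) ^ j) = ENNReal.ofReal ((1 - Real.exp (-c))⁻¹) := by
          rw [← ENNReal.ofReal_tsum_of_nonneg (fun k => by positivity)
            (summable_geometric_of_lt_one hq0.le hq1), tsum_geometric_of_lt_one hq0.le hq1]
        simp_rw [ENNReal.tsum_mul_left, h3]
        rw [ENNReal.tsum_mul_right, h4]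
    _ ≤ _ := by
        rw [← ENNReal.ofReal_mul (by positivity), ← ENNReal.ofReal_mul (by positivity)]
        refine ENNReal.ofReal_le_ofReal ?_
        have h5 : C * T * Real.exp (-(c * n)) * ((1 - Real.exp (-c))⁻¹ * 2) =
            D * Real.exp (-(c * n)) * T := by rw [hD]; ring
        rw [h5]
        refine mul_le_mul_of_nonneg_right ?_ hT
        exact mul_le_mul_of_nonneg_right (le_max_left _ _) (Real.exp_pos _).le

end Pool.Agent.K3h80.LAG
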