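import Pool.Agent.K3h80.LAG.Sad
import Pool.Agent.H24R2.DZ.Half

set_option autoImplicit false

/-!
# The Laguerre expression of order `n` is positive at the points which are good at scale `n`
-/

namespace Pool.Agent.K3h80.LAG

open Complex MeasureTheory Set Filter Topology
open Pool.Agent.H24R2.DZ (NN hc)

/-- integration of the logarithmic derivative -/
theorem seg {f : ℂ → ℂ} {S : Set ℂ} (hS : Convex ℝ S) (hf : Differentiable ℂ f)
    {A B : ℝ} (hld : ∀ w ∈ S, f w ≠ 0 ∧ ‖logDeriv f w - (A : ℂ)‖ ≤ B) {u v : ℂ}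
    (hu : u ∈ S) (hv : v ∈ S) :
    ‖f v‖ ≤ ‖f u‖ * Real.exp (A * (v.re - u.re) + B * ‖v - u‖) := by
  set γ : ℝ → ℂ := fun s => u + (s : ℂ) * (v - u) with hγ
  set G : ℝ → ℂ := fun s => f (γ s) * Complex.exp (-(A : ℂ) * γ s) with hG
  have hγd : ∀ s : ℝ, HasDerivAt γ (v - u) s := by
    intro s
    have h1 : HasDerivAt (fun s : ℝ => (s : ℂ)) 1 s := Complex.ofRealCLM.hasDerivAt
    have := (h1.mul_const (v - u)).const_add u
    rwa [one_mul] at this
  have hGd : ∀ s : ℝ, HasDerivAt G ((deriv f (γ s) - A * f (γ s)) * (v - u) *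
      Complex.exp (-(A : ℂ) * γ s)) s := by
    intro s
    have h1 : HasDerivAt (fun s : ℝ => f (γ s)) (deriv f (γ s) * (v - u)) s :=
      (hf (γ s)).hasDerivAt.comp s (hγd s)
    have h2 : HasDerivAt (fun s : ℝ => Complex.exp (-(A : ℂ) * γ s))
        (Complex.exp (-(A : ℂ) * γ s) * (-(A : ℂ) * (v - u))) s :=
      ((hγd s).const_mul (-(A : ℂ))).cexp
    have h3 := h1.mul h2
    refine h3.congr_deriv ?_
    ring
  have hmem : ∀ s : ℝ, s ∈ Icc (0 : ℝ) 1 → γ s ∈ S := by
    intro s hs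
    have h1 : γ s = (1 - s) • u + s • v := by
      simp only [hγ, Complex.real_smul]
      push_cast
      ring
    rw [h1]
    exact hS hu hv (by linarith [hs.2]) hs.1 (by ring)
  have hgr := norm_le_gronwallBound_of_norm_deriv_right_le (f := G)
    (f' := fun s => (deriv f (γ s) - A * f (γ s)) * (v - u) * Complex.exp (-(A : ℂ) * γ s))
    (δ := ‖G 0‖) (K := B * ‖v - u‖) (ε := 0) (a := 0) (b := 1)
    (fun s _ => (hGd s).continuousAt.continuousWithinAt)
    (fun s _ => (hGd s).hasDerivWithinAt) le_rfl (by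
      intro s hs
      obtain ⟨h0, h1⟩ := hld (γ s) (hmem s ⟨hs.1, hs.2.le⟩)
      have h2 : deriv f (γ s) - A * f (γ s) = (logDeriv f (γ s) - A) * f (γ s) := by
        rw [logDeriv_apply]
        field_simp
      rw [h2, hG, add_zero]
      simp only [norm_mul]
      have h3 : ‖logDeriv f (γ s) - (A : ℂ)‖ * ‖f (γ s)‖ * ‖v - u‖ *
          ‖Complex.exp (-(A : ℂ) * γ s)‖ ≤ B * ‖f (γ s)‖ * ‖v - u‖ *
          ‖Complex.exp (-(A : ℂ) * γ s)‖ := by
        gcongr
      calc _ ≤ _ := h3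
        _ = _ := by ring) 1 ⟨zero_le_one, le_rfl⟩
  rw [gronwallBound_ε0, sub_zero, mul_one] at hgr
  have e0 : γ 0 = u := by simp [hγ]
  have e1 : γ 1 = v := by simp [hγ]
  rw [hG] at hgr
  simp only [e0, e1, norm_mul, Complex.norm_exp] at hgr
  have r1 : ∀ w : ℂ, (-(A : ℂ) * w).re = -(A * w.re) := by
    intro w
    simp
  rw [r1, r1] at hgr
  have h4 : ‖f v‖ = ‖f v‖ * Real.exp (-(A * v.re)) * Real.exp (A * v.re) := by
    rw [mul_assoc, ← Real.exp_add]
    simp
  rw [h4]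
  calc ‖f v‖ * Real.exp (-(A * v.re)) * Real.exp (A * v.re)
      ≤ ‖f u‖ * Real.exp (-(A * u.re)) * Real.exp (B * ‖v - u‖) * Real.exp (A * v.re) := by
        gcongr
    _ = ‖f u‖ * Real.exp (A * (v.re - u.re) + B * ‖v - u‖) := by
        rw [mul_assoc, mul_assoc, ← Real.exp_add, ← Real.exp_add]
        congr 2
        ring


theorem conv_far (R ε : ℝ) : Convex ℝ {w : ℂ | ε ≤ w.re ∧ ‖w‖ ≤ R} := by
  have h1 : Convex ℝ {w : ℂ | ε ≤ w.re} := convex_halfSpace_re_ge ε
  have h2 : Convex ℝ {w : ℂ | ‖w‖ ≤ R} := by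
    have h3 : {w : ℂ | ‖w‖ ≤ R} = Metric.closedBall (0 : ℂ) R := by
      ext w
      simp
    rw [h3]
    exact convex_closedBall (0 : ℂ) R
  exact h1.inter h2


section

variable {F : ℂ → ℂ} (hd : Differentiable ℂ F)
  (hs : ∀ z : ℂ, F (-((starRingEnd ℂ) z)) = (starRingEnd ℂ) (F z))

/-- the even function `F z F (-z)` -/
noncomputable def GG (F : ℂ → ℂ) (z : ℂ) : ℂ := F z * F (-z)

include hs in
theorem F_neg (z : ℂ) : F (-z) = (starRingEnd ℂ) (F ((starRingEnd ℂ) z)) := by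
  rw [← hs]
  simp

include hd in
theorem GG_diff : Differentiable ℂ (GG F) := hd.mul (hd.comp differentiable_neg)

include hs in
theorem GG_symm (z : ℂ) : GG F (-((starRingEnd ℂ) z)) = (starRingEnd ℂ) (GG F z) := by
  unfold GG
  rw [map_mul, hs, F_neg hs z, neg_neg, Complex.conj_conj]

include hs in
theorem GG_conj (z : ℂ) : GG F ((starRingEnd ℂ) z) = (starRingEnd ℂ) (GG F z) := by
  rw [← GG_symm hs]
  unfold GG
  rw [neg_neg, mul_comm]

include hs in
theorem GG_real (x : ℝ) : GG F x = ((‖F x‖ ^ 2 : ℝ) : ℂ) := by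
  unfold GG
  rw [F_neg hs, Complex.conj_ofReal, Complex.mul_conj, Complex.normSq_eq_norm_sq]

include hd hs in
theorem far2 {a η : ℝ} {z : ℂ} (h : ∀ z : ℂ, 1 / 1000 ≤ z.re → ‖z‖ ≤ 20 → F z ≠ 0 ∧ ‖logDeriv F z - a‖ ≤ η * a)
    (hz : 1 / 1000 ≤ z.re) (hz2 : ‖z‖ ≤ 20) :
    GG F z ≠ 0 ∧ ‖logDeriv (GG F) z - ((2 * a : ℝ) : ℂ)‖ ≤ η * (2 * a) := by
  obtain ⟨h1, h2⟩ := h z hz hz2
  obtain ⟨h3, h4⟩ := h ((starRingEnd ℂ) z) (by rwa [Complex.conj_re]) (by rwa [Complex.norm_conj])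
  have e : (fun z => F (-z)) = (starRingEnd ℂ) ∘ F ∘ (starRingEnd ℂ) := by
    funext w
    exact F_neg hs w
  have h5 : F (-z) ≠ 0 := by
    rw [F_neg hs]
    exact (map_ne_zero (starRingEnd ℂ)).2 h3
  have h6 : logDeriv (fun z => F (-z)) z = (starRingEnd ℂ) (logDeriv F ((starRingEnd ℂ) z)) := by
    rw [logDeriv_apply, logDeriv_apply, map_div₀, e, deriv_conj_conj]
    simp only [Function.comp_apply]
    rw [F_neg hs]
  refine ⟨mul_ne_zero h1 h5, ?_⟩
  have h7 : logDeriv (GG F) z = logDeriv F z + logDeriv (fun z => F (-z)) z :=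
    logDeriv_mul z h1 h5 (hd z) ((hd.comp differentiable_neg) z)
  rw [h7, h6]
  have h8 : logDeriv F z + (starRingEnd ℂ) (logDeriv F ((starRingEnd ℂ) z)) - ((2 * a : ℝ) : ℂ) =
      (logDeriv F z - a) + (starRingEnd ℂ) (logDeriv F ((starRingEnd ℂ) z) - a) := by
    rw [map_sub, Complex.conj_ofReal]
    push_cast
    ring
  rw [h8]
  refine (norm_add_le _ _).trans ?_
  rw [Complex.norm_conj]
  linarith

end

theorem coef_pos : ∃ η : ℝ, ∃ n0 : ℕ, 0 < η ∧ 1 ≤ n0 ∧ ∀ (n : ℕ) (F : ℂ → ℂ), n0 ≤ n → NN n η F →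
    0 < (iteratedDeriv (2 * n) (GG F) 0).re := by
  obtain ⟨A0, hA0, hmain⟩ := main_int
  refine ⟨1 / 10000, ⌈A0⌉₊, by norm_num, ?_, ?_⟩
  · have : (0 : ℝ) < A0 := by linarith
    exact Nat.one_le_iff_ne_zero.2 (Nat.ceil_pos.2 this).ne'
  intro n F hn hNN
  obtain ⟨hd, hs, hfar, hnear⟩ := hNN
  have hnA : A0 ≤ n := Nat.ceil_le.1 hn
  have hn0 : (0 : ℝ) < n := by linarith
  have hGd := GG_diff hd
  have hGs := GG_symm hs
  have hGc := GG_conj hs
  have hGfar : ∀ z : ℂ, 1 / 1000 ≤ z.re → ‖z‖ ≤ 20 → GG F z ≠ 0 ∧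
      ‖logDeriv (GG F) z - ((2 * n : ℝ) : ℂ)‖ ≤ 1 / 10000 * (2 * n) := fun z hz hz2 =>
    far2 hd hs hfar hz hz2
  have hG1 : ‖GG F 1‖ = ‖F 1‖ ^ 2 := by
    have := GG_real hs 1
    rw [Complex.ofReal_one] at this
    rw [this, Complex.norm_real, Real.norm_eq_abs, abs_of_nonneg (by positivity)]
  have hGnear : ∀ z : ℂ, |z.re| ≤ 1 / 1000 → ‖z‖ ≤ 20 → ‖GG F z‖ ≤ ‖GG F 1‖ * Real.exp (-(9 / 5 * n)) := by
    intro z hz hz2
    have h1 := hnear z hz hz2
    have h2 := hnear (-z) (by rwa [Complex.neg_re, abs_neg]) (by rwa [norm_neg])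
    unfold GG at *
    rw [norm_mul, hG1]
    calc ‖F z‖ * ‖F (-z)‖ ≤ (‖F 1‖ * Real.exp (-(9 / 10 * n))) * (‖F 1‖ * Real.exp (-(9 / 10 * n))) :=
          mul_le_mul h1 h2 (norm_nonneg _) (by positivity)
      _ = ‖F 1‖ ^ 2 * (Real.exp (-(9 / 10 * n)) * Real.exp (-(9 / 10 * n))) := by ring
      _ = _ := by rw [← Real.exp_add]; ring_nf
  -- real on the real axis
  have hlr : ∀ x : ℝ, (logDeriv (GG F) x).im = 0 := by
    intro x
    have h1 : (starRingEnd ℂ) (logDeriv (GG F) x) = logDeriv (GG F) x := by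
      have e : GG F = (starRingEnd ℂ) ∘ GG F ∘ (starRingEnd ℂ) := by
        funext w
        simp only [Function.comp_apply]
        rw [hGc, Complex.conj_conj]
      have h2 : deriv (GG F) x = (starRingEnd ℂ) (deriv (GG F) x) := by
        conv_lhs => rw [e]
        rw [deriv_conj_conj]
        simp only [Function.comp_apply, Complex.conj_ofReal]
      have h3 : GG F x = (starRingEnd ℂ) (GG F x) := by
        rw [← hGc, Complex.conj_ofReal]
      rw [logDeriv_apply, map_div₀, ← h2, ← h3]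
    exact Complex.conj_eq_iff_im.1 h1
  have hnx : ∀ x : ℝ, |x| ≤ 20 → ‖(x : ℂ)‖ ≤ 20 := fun x hx => by
    rw [Complex.norm_real]; exact hx
  have hld : ∀ x : ℝ, 1 / 2 ≤ x → x ≤ 2 → |(logDeriv (GG F) x).re - 2 * n| ≤ 1 / 10000 * (2 * n) := by
    intro x h1 h2
    have h3 := (hGfar x (by rw [Complex.ofReal_re]; linarith) (hnx x (by rw [abs_le]; constructor <;> linarith))).2
    have h4 := (Complex.abs_re_le_norm _).trans h3
    rwa [Complex.sub_re, Complex.ofReal_re] at h4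
  obtain ⟨R, hR, hRs⟩ : ∃ R ∈ Icc (1 - 2 / 10000 : ℝ) (1 + 2 / 10000),
      R * (logDeriv (GG F) R).re = 2 * n := by
    have hcont : ContinuousOn (fun x : ℝ => x * (logDeriv (GG F) x).re)
        (Icc (1 - 2 / 10000 : ℝ) (1 + 2 / 10000)) := by
      refine continuousOn_id.mul ?_
      refine Complex.continuous_re.comp_continuousOn ?_
      intro x hx
      have h1 := (hGfar x (by rw [Complex.ofReal_re]; linarith [hx.1]) (hnx x (by
        rw [abs_le]; constructor <;> linarith [hx.1, hx.2]))).1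
      have h2 : ContinuousAt (logDeriv (GG F)) x :=
        ((hGd.contDiff.differentiable_deriv_two x).continuousAt).div (hGd x).continuousAt h1
      exact (ContinuousAt.comp (f := fun x : ℝ => (x : ℂ)) h2
        Complex.continuous_ofReal.continuousAt).continuousWithinAt
    have h1 := (abs_le.1 (hld (1 - 2 / 10000) (by norm_num) (by norm_num))).2
    have h2 := (abs_le.1 (hld (1 + 2 / 10000) (by norm_num) (by norm_num))).1
    have h3 := intermediate_value_Icc (by norm_num) hcont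
    refine h3 ⟨?_, ?_⟩
    · nlinarith
    · nlinarith
  have hR1 : 0 < R := by linarith [hR.1]
  have hRl : (logDeriv (GG F) R) = ((2 * n / R : ℝ) : ℂ) := by
    apply Complex.ext
    · rw [Complex.ofReal_re, eq_div_iff hR1.ne']
      linarith
    · rw [hlr, Complex.ofReal_im]
  obtain ⟨H, hH⟩ : ∃ H : ℂ → ℂ, H = fun z => GG F ((R : ℂ) * z) := ⟨_, rfl⟩
  have hHd : Differentiable ℂ H := by
    rw [hH]; exact hGd.comp (differentiable_id.const_mul _)
  have hHl : ∀ z, logDeriv H z = R * logDeriv (GG F) (R * z) := by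
    intro z
    rw [hH, logDeriv_apply, logDeriv_apply]
    have h1 : HasDerivAt (fun z => GG F ((R : ℂ) * z)) (deriv (GG F) (R * z) * R) z := by
      have h2 : HasDerivAt (fun z : ℂ => (R : ℂ) * z) R z := by
        simpa using (hasDerivAt_id z).const_mul (R : ℂ)
      exact (hGd (R * z)).hasDerivAt.comp z h2
    rw [h1.deriv]
    ring
  obtain ⟨c, hcF⟩ : ∃ c : ℝ, c = ‖F R‖ ^ 2 := ⟨_, rfl⟩
  have hFR : F R ≠ 0 := (hfar R (by rw [Complex.ofReal_re]; linarith [hR.1])
    (hnx R (by rw [abs_le]; constructor <;> linarith [hR.1, hR.2]))).1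
  have hc0 : 0 < c := by rw [hcF]; positivity
  have hH1 : H 1 = c := by rw [hH]; simp only [mul_one]; rw [GG_real hs, hcF]
  have hGR : ‖GG F R‖ = c := by
    rw [GG_real hs, Complex.norm_real, Real.norm_eq_abs, abs_of_nonneg (by positivity), hcF]
  have hint := hmain (H := H) (A := 2 * n * R) (η := 1 / 10000) (m := 2 * n) (by nlinarith [hR.1])
    (by norm_num) (by norm_num) hHd ?_ ?_ (c := c) hc0 hH1 ?_
  · -- conclusion
    have hHs : ∀ z : ℂ, H (-((starRingEnd ℂ) z)) = (starRingEnd ℂ) (H z) := by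
      intro z
      rw [hH]
      simp only
      rw [← hGs, map_mul, Complex.conj_ofReal]
      congr 1
      ring
    obtain ⟨h1, -⟩ := Pool.Agent.H24R2.DZ.half H (2 * n) 0 hHd hHs (by simp)
    have h2 : iteratedDeriv (2 * n) H 0 = (R : ℂ) ^ (2 * n) * iteratedDeriv (2 * n) (GG F) 0 := by
      rw [hH]
      have h3 := iteratedDeriv_comp_const_mul (n := 2 * n) (f := GG F) (hGd.contDiff) (R : ℂ)
      have h4 := congrFun h3 0
      simpa using h4
    have h3 : hc H (2 * n + 1) 0 = (1 / (2 * Real.pi) : ℂ) *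
        ∫ φ in (-(Real.pi / 2))..(Real.pi / 2), H (cexp (I * φ)) * cexp (-(I * (2 * n : ℝ) * φ)) := by
      unfold hc
      congr 1
      refine intervalIntegral.integral_congr fun φ _ => ?_
      simp only [sub_zero]
      have hw : (cexp (I * φ)) ^ (2 * n) = cexp (I * (2 * n : ℝ) * φ) := by
        rw [← Complex.exp_nat_mul]
        congr 1
        push_cast
        ring
      have h4 : cexp (I * φ) ≠ 0 := Complex.exp_ne_zero _
      have h5 : cexp (I * (2 * n : ℝ) * φ) ≠ 0 := Complex.exp_ne_zero _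
      rw [pow_succ, hw, Complex.exp_neg]
      field_simp
    have h4 : (iteratedDeriv (2 * n) H 0 / ((2 * n).factorial : ℂ)).re = 2 * (hc H (2 * n + 1) 0).re := by
      rw [h1, map_zero, neg_zero, pow_mul]
      simp only [even_two, Even.neg_pow, one_pow, one_mul]
      rw [Complex.add_re, Complex.conj_re]
      ring
    have h5 : (hc H (2 * n + 1) 0).re = 1 / (2 * Real.pi) *
        ∫ φ in (-(Real.pi / 2))..(Real.pi / 2), (H (cexp (I * φ)) * cexp (-(I * (2 * n : ℝ) * φ))).re := by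
      rw [h3]
      have h6 : (1 / (2 * Real.pi) : ℂ) = ((1 / (2 * Real.pi) : ℝ) : ℂ) := by push_cast; rfl
      rw [h6, Complex.re_ofReal_mul]
      congr 1
      have h7 := Complex.reCLM.intervalIntegral_comp_comm (a := -(Real.pi / 2)) (b := Real.pi / 2)
        (μ := volume) (f := fun φ : ℝ => H (cexp (I * φ)) * cexp (-(I * (2 * n : ℝ) * φ)))
        (Continuous.intervalIntegrable (by have := hHd.continuous; fun_prop) _ _)
      exact h7.symm
    have h6 : 0 < (iteratedDeriv (2 * n) H 0 / ((2 * n).factorial : ℂ)).re := by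
      rw [h4, h5]
      have : 0 < 1 / (2 * Real.pi) := by positivity
      positivity
    have h7 : (iteratedDeriv (2 * n) H 0 / ((2 * n).factorial : ℂ)) =
        ((R ^ (2 * n) / ((2 * n).factorial : ℝ) : ℝ) : ℂ) * iteratedDeriv (2 * n) (GG F) 0 := by
      rw [h2]
      push_cast
      ring
    rw [h7, Complex.re_ofReal_mul] at h6
    have h8 : 0 < R ^ (2 * n) / ((2 * n).factorial : ℝ) := by positivity
    exact (mul_pos_iff_of_pos_left h8).1 h6
  · intro z hz
    rw [Metric.mem_ball, dist_eq_norm] at hz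
    have hz1 : 1 / 2 ≤ z.re := by
      have h1 := (abs_le.1 ((Complex.abs_re_le_norm (z - 1)).trans hz.le)).1
      simp at h1
      linarith
    have hz2 : ‖z‖ ≤ 3 / 2 := by
      have h1 : z = (z - 1) + 1 := by ring
      rw [h1]
      refine (norm_add_le _ _).trans ?_
      rw [norm_one]
      linarith
    have h1 : 1 / 1000 ≤ ((R : ℂ) * z).re := by
      rw [Complex.re_ofReal_mul]
      nlinarith [hR.1]
    have h2 : ‖(R : ℂ) * z‖ ≤ 20 := by
      rw [norm_mul, Complex.norm_real, Real.norm_eq_abs, abs_of_pos hR1]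
      nlinarith [hR.2, norm_nonneg z]
    obtain ⟨h3, h4⟩ := hGfar _ h1 h2
    refine ⟨by rw [hH]; exact h3, ?_⟩
    rw [hHl]
    have h5 : (R : ℂ) * logDeriv (GG F) (R * z) - ((2 * n * R : ℝ) : ℂ) =
        R * (logDeriv (GG F) (R * z) - ((2 * n : ℝ) : ℂ)) := by
      push_cast; ring
    rw [h5, norm_mul, Complex.norm_real, Real.norm_eq_abs, abs_of_pos hR1]
    calc R * _ ≤ R * (1 / 10000 * (2 * n)) := mul_le_mul_of_nonneg_left h4 hR1.le
      _ = _ := by ring
  · rw [hHl, mul_one, hRl]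
    have : (R : ℂ) ≠ 0 := by exact_mod_cast hR1.ne'
    push_cast
    field_simp
  · intro φ h1 h2
    have hcos0 : 0 ≤ Real.cos φ := by
      rw [← Real.cos_abs]
      exact Real.cos_nonneg_of_neg_pi_div_two_le_of_le (by linarith [abs_nonneg φ, Real.pi_pos]) h2
    have hcos1 : Real.cos φ ≤ 1 - 7 / 1000 := by
      have h3 : Real.cos φ ≤ Real.cos (1 / 8) := by
        rw [← Real.cos_abs φ]
        exact Real.cos_le_cos_of_nonneg_of_le_pi (by norm_num) (by linarith [Real.pi_pos]) h1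
      have h4 := (abs_le.1 (Real.cos_bound (x := 1 / 8) (by rw [abs_of_nonneg] <;> norm_num))).2
      rw [abs_of_nonneg (by norm_num : (0 : ℝ) ≤ 1 / 8)] at h4
      norm_num at h4
      linarith
    have hwre : (cexp (I * φ)).re = Real.cos φ := by
      rw [mul_comm, Complex.exp_ofReal_mul_I_re]
    have hwn : ‖(R : ℂ) * cexp (I * φ)‖ ≤ 20 := by
      rw [norm_mul, norm_exp_I, mul_one, Complex.norm_real, Real.norm_eq_abs, abs_of_pos hR1]
      linarith [hR.2]
    have hRR : ‖(R : ℂ)‖ ≤ 20 := hnx R (by rw [abs_le]; constructor <;> linarith [hR.1, hR.2])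
    have hHw : H (cexp (I * φ)) = GG F (R * cexp (I * φ)) := by rw [hH]
    rw [hHw]
    rcases le_or_gt (1 / 1000) ((R : ℂ) * cexp (I * φ)).re with h3 | h3
    · have h4 := seg (f := GG F) (A := 2 * n) (B := 1 / 10000 * (2 * n)) (conv_far 20 (1 / 1000)) hGd
        (fun w hw => hGfar w hw.1 hw.2) (u := R) (v := R * cexp (I * φ))
        ⟨by rw [Complex.ofReal_re]; linarith [hR.1], hRR⟩ ⟨h3, hwn⟩
      rw [hGR] at h4
      refine h4.trans (mul_le_mul_of_nonneg_left (Real.exp_le_exp.2 ?_) hc0.le)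
      rw [Complex.re_ofReal_mul, hwre, Complex.ofReal_re]
      have h5 : ‖(R : ℂ) * cexp (I * φ) - R‖ ≤ 2 * R := by
        have h6 : (R : ℂ) * cexp (I * φ) - R = R * (cexp (I * φ) - 1) := by ring
        rw [h6, norm_mul, Complex.norm_real, Real.norm_eq_abs, abs_of_pos hR1, mul_comm 2 R]
        refine mul_le_mul_of_nonneg_left ?_ hR1.le
        refine (norm_sub_le _ _).trans ?_
        rw [norm_exp_I, norm_one]
        norm_num
      have h6 : 1 / 10000 * (2 * (n : ℝ)) * ‖(R : ℂ) * cexp (I * φ) - R‖ ≤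
          1 / 10000 * (2 * (n : ℝ)) * (2 * R) := mul_le_mul_of_nonneg_left h5 (by positivity)
      have h7 : 0 < (n : ℝ) * R := by positivity
      have h8 : (n : ℝ) * R * Real.cos φ ≤ n * R * (1 - 7 / 1000) := mul_le_mul_of_nonneg_left hcos1 h7.le
      nlinarith
    · have h4 : |((R : ℂ) * cexp (I * φ)).re| ≤ 1 / 1000 := by
        rw [abs_le]
        refine ⟨?_, h3.le⟩
        rw [Complex.re_ofReal_mul, hwre]
        have : 0 ≤ R * Real.cos φ := by positivity
        linarith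
      have h5 := hGnear _ h4 hwn
      refine h5.trans ?_
      have h6 := seg (f := GG F) (A := 2 * n) (B := 1 / 10000 * (2 * n)) (conv_far 20 (1 / 1000)) hGd
        (fun w hw => hGfar w hw.1 hw.2) (u := R) (v := 1)
        ⟨by rw [Complex.ofReal_re]; linarith [hR.1], hRR⟩ ⟨by norm_num, by norm_num⟩
      rw [hGR] at h6
      have h7 : ‖(1 : ℂ) - R‖ ≤ 2 / 10000 := by
        have : (1 : ℂ) - R = ((1 - R : ℝ) : ℂ) := by push_cast; rfl
        rw [this, Complex.norm_real, Real.norm_eq_abs, abs_le]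
        constructor <;> linarith [hR.1, hR.2]
      have h8 : 2 * (n : ℝ) * ((1 : ℂ).re - (R : ℂ).re) + 1 / 10000 * (2 * n) * ‖(1 : ℂ) - R‖ ≤ n / 100 := by
        rw [Complex.one_re, Complex.ofReal_re]
        have h9 : 1 / 10000 * (2 * (n : ℝ)) * ‖(1 : ℂ) - R‖ ≤ 1 / 10000 * (2 * n) * (2 / 10000) :=
          mul_le_mul_of_nonneg_left h7 (by positivity)
        nlinarith [hR.1]
      calc ‖GG F 1‖ * Real.exp (-(9 / 5 * n)) ≤ (c * Real.exp (n / 100)) * Real.exp (-(9 / 5 * n)) := by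
            refine mul_le_mul_of_nonneg_right (h6.trans ?_) (Real.exp_pos _).le
            exact mul_le_mul_of_nonneg_left (Real.exp_le_exp.2 h8) hc0.le
        _ = c * Real.exp (n / 100 + -(9 / 5 * n)) := by rw [mul_assoc, ← Real.exp_add]
        _ ≤ _ := mul_le_mul_of_nonneg_left (Real.exp_le_exp.2 (by nlinarith [hR.2])) hc0.le

end Pool.Agent.K3h80.LAG
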