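import Mathlib

set_option autoImplicit false

/-!
# Positivity of a Taylor coefficient by the saddle point method
-/

namespace Pool.Agent.K3h80.LAG

open Complex MeasureTheory Set Filter Topology

theorem norm_exp_I (φ : ℝ) : ‖cexp (I * φ)‖ = 1 := by
  rw [mul_comm, norm_exp_ofReal_mul_I]

theorem norm_exp_sub_one (φ : ℝ) : ‖cexp (I * φ) - 1‖ ≤ |φ| := by
  have h := Real.norm_exp_I_mul_ofReal_sub_one_le (x := φ)
  simpa using h

/-- exponential representation near the saddle point. -/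
theorem rep {H : ℂ → ℂ} {A η m : ℝ} (hA : 0 ≤ A) (hη : 0 ≤ η) (hH : Differentiable ℂ H)
    (hfar : ∀ z ∈ Metric.ball (1 : ℂ) (1 / 2), H z ≠ 0 ∧ ‖logDeriv H z - A‖ ≤ η * A)
    (hsad : logDeriv H 1 = m) (φ : ℝ) (hφ : |φ| ≤ 1 / 8) :
    ∃ ε : ℂ, ‖ε‖ ≤ 6 * η * A * φ ^ 2 ∧ H (cexp (I * φ)) * cexp (-(I * m * φ)) =
      H 1 * cexp (A * (cexp (I * φ) - 1 - I * φ) + ε) := by
  have hηA : 0 ≤ η * A := mul_nonneg hη hA
  have hld : DifferentiableOn ℂ (logDeriv H) (Metric.ball (1 : ℂ) (1 / 2)) := by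
    intro z hz
    refine DifferentiableAt.differentiableWithinAt ?_
    exact ((hH.contDiff.differentiable_deriv_two z : DifferentiableAt ℂ (deriv H) z)).div (hH z)
      (hfar z hz).1
  obtain ⟨q, hq⟩ := hld.isExactOn_ball
  -- H = c exp q
  have hconst : ∀ z ∈ Metric.ball (1 : ℂ) (1 / 2), H z = H 1 * cexp (q z - q 1) := by
    intro z hz
    have hd : ∀ w ∈ Metric.ball (1 : ℂ) (1 / 2),
        HasDerivAt (fun w => H w * cexp (-(q w))) 0 w := by
      intro w hw
      have h1 := (hH w).hasDerivAt.mul ((hq w hw).neg.cexp)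
      refine h1.congr_deriv ?_
      rw [logDeriv_apply]
      have := (hfar w hw).1
      field_simp
      ring
    have h1 : (fun w => H w * cexp (-(q w))) z = (fun w => H w * cexp (-(q w))) 1 := by
      refine (convex_ball (1 : ℂ) (1 / 2)).is_const_of_fderivWithin_eq_zero (𝕜 := ℂ)
        (fun w hw => (hd w hw).differentiableAt.differentiableWithinAt) (fun w hw => ?_) hz
        (Metric.mem_ball_self (by norm_num))
      rw [fderivWithin_of_isOpen Metric.isOpen_ball hw]
      have := (hd w hw).hasFDerivAt.fderiv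
      rw [this]
      ext
      simp
    simp only at h1
    have h2 : H z = H z * cexp (-(q z)) * cexp (q z) := by
      rw [mul_assoc, ← Complex.exp_add]; simp
    rw [h2, h1, mul_assoc, ← Complex.exp_add]
    congr 2
    ring
  -- the function z (ℓ z - A)
  have hP : ∀ z ∈ Metric.closedBall (1 : ℂ) (1 / 8),
      ‖deriv (fun z => z * (logDeriv H z - A)) z‖ ≤ 6 * (η * A) := by
    intro z hz
    rw [Metric.mem_closedBall, dist_eq_norm] at hz
    have h1 := Complex.norm_deriv_le_of_forall_mem_sphere_norm_le (c := z) (R := 1 / 4)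
      (f := fun z => z * (logDeriv H z - A)) (C := 3 / 2 * (η * A)) (by norm_num) ?_ ?_
    · refine h1.trans (le_of_eq ?_)
      ring
    · refine DifferentiableOn.diffContOnCl ?_
      rw [closure_ball _ (by norm_num)]
      intro w hw
      have hw' : w ∈ Metric.ball (1 : ℂ) (1 / 2) := by
        rw [Metric.mem_closedBall, dist_eq_norm] at hw
        rw [Metric.mem_ball, dist_eq_norm]
        have : w - 1 = (w - z) + (z - 1) := by ring
        rw [this]
        refine (norm_add_le _ _).trans_lt ?_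
        linarith
      refine DifferentiableAt.differentiableWithinAt ?_
      exact differentiableAt_id.mul (((hld w hw').differentiableAt
        (Metric.isOpen_ball.mem_nhds hw')).sub_const _)
    · intro w hw
      have hw1 : ‖w - z‖ = 1 / 4 := by
        rw [← dist_eq_norm]; exact hw
      have hw3 : ‖w - 1‖ ≤ 3 / 8 := by
        have : w - 1 = (w - z) + (z - 1) := by ring
        rw [this]
        refine (norm_add_le _ _).trans ?_
        linarith
      have hw' : w ∈ Metric.ball (1 : ℂ) (1 / 2) := by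
        rw [Metric.mem_ball, dist_eq_norm]
        linarith
      have hw2 : ‖w‖ ≤ 3 / 2 := by
        have : w = (w - 1) + 1 := by ring
        rw [this]
        refine (norm_add_le _ _).trans ?_
        rw [norm_one]
        linarith
      rw [norm_mul]
      exact mul_le_mul hw2 (hfar w hw').2 (norm_nonneg _) (by norm_num)
  have hPd : ∀ z ∈ Metric.closedBall (1 : ℂ) (1 / 8),
      DifferentiableAt ℂ (fun z => z * (logDeriv H z - A)) z := by
    intro z hz
    have hz' : z ∈ Metric.ball (1 : ℂ) (1 / 2) :=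
      Metric.closedBall_subset_ball (by norm_num) hz
    exact differentiableAt_id.mul (((hld z hz').differentiableAt
        (Metric.isOpen_ball.mem_nhds hz')).sub_const _)
  have hP2 : ∀ s : ℝ, |s| ≤ 1 / 8 → ‖cexp (I * s) * (logDeriv H (cexp (I * s)) - A) -
      1 * (logDeriv H 1 - A)‖ ≤ 6 * (η * A) * |s| := by
    intro s hs
    have hm : cexp (I * s) ∈ Metric.closedBall (1 : ℂ) (1 / 8) := by
      rw [Metric.mem_closedBall, dist_eq_norm]
      exact (norm_exp_sub_one s).trans hs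
    have h1 := (convex_closedBall (1 : ℂ) (1 / 8)).norm_image_sub_le_of_norm_deriv_le hPd hP
      (Metric.mem_closedBall_self (by norm_num)) hm
    refine h1.trans ?_
    exact mul_le_mul_of_nonneg_left (norm_exp_sub_one s) (by linarith)
  obtain ⟨E, hE⟩ : ∃ E : ℝ → ℂ, E = fun s : ℝ => q (cexp (I * s)) - q 1 - I * m * s -
      A * (cexp (I * s) - 1 - I * s) := ⟨_, rfl⟩
  have hEd : ∀ s : ℝ, |s| ≤ 1 / 8 → HasDerivAt E (I * (cexp (I * s) * (logDeriv H (cexp (I * s)) - A) -
      1 * (logDeriv H 1 - A))) s := by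
    intro s hs
    have hm : cexp (I * s) ∈ Metric.ball (1 : ℂ) (1 / 2) := by
      rw [Metric.mem_ball, dist_eq_norm]
      exact ((norm_exp_sub_one s).trans hs).trans_lt (by norm_num)
    have h0 : HasDerivAt (fun s : ℝ => (s : ℂ)) 1 s := Complex.ofRealCLM.hasDerivAt
    have h1 : HasDerivAt (fun s : ℝ => cexp (I * s)) (cexp (I * s) * (I * 1)) s :=
      (h0.const_mul I).cexp
    have h2 : HasDerivAt (fun s : ℝ => q (cexp (I * s)))
        (logDeriv H (cexp (I * s)) * (cexp (I * s) * (I * 1))) s := (hq _ hm).comp s h1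
    have h3 := ((h2.sub_const (q 1)).sub (h0.const_mul (I * m))).sub
      (((h1.sub_const 1).sub (h0.const_mul I)).const_mul (A : ℂ))
    rw [hE]
    refine h3.congr_deriv ?_
    rw [hsad]
    ring
  have hE0 : E 0 = 0 := by rw [hE]; simp
  refine ⟨E φ, ?_, ?_⟩
  · have hsub : ∀ s ∈ uIcc 0 φ, |s| ≤ |φ| := by
      intro s hs
      have h2 := abs_sub_left_of_mem_uIcc hs
      simpa using h2
    have h1 := (convex_uIcc (0 : ℝ) φ).norm_image_sub_le_of_norm_hasDerivWithin_le
      (f := E) (f' := fun s => I * (cexp (I * s) * (logDeriv H (cexp (I * s)) - A) -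
      1 * (logDeriv H 1 - A))) (C := 6 * (η * A) * |φ|)
      (fun s hs => (hEd s ((hsub s hs).trans hφ)).hasDerivWithinAt)
      (fun s hs => by
        rw [norm_mul, Complex.norm_I, one_mul]
        refine (hP2 s ((hsub s hs).trans hφ)).trans ?_
        exact mul_le_mul_of_nonneg_left (hsub s hs) (by linarith)) left_mem_uIcc right_mem_uIcc
    rw [hE0, sub_zero, sub_zero, Real.norm_eq_abs] at h1
    refine h1.trans (le_of_eq ?_)
    rw [mul_assoc, abs_mul_abs_self]
    ring
  · have hm : cexp (I * φ) ∈ Metric.ball (1 : ℂ) (1 / 2) := by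
      rw [Metric.mem_ball, dist_eq_norm]
      exact ((norm_exp_sub_one φ).trans hφ).trans_lt (by norm_num)
    rw [hconst _ hm, mul_assoc, ← Complex.exp_add, hE]
    congr 2
    ring

/-- the normalised integrand has positive real part near the saddle point and is small elsewhere -/
theorem central {H : ℂ → ℂ} {A η m : ℝ} (hA : 10000 ≤ A) (hη : 0 ≤ η) (hη1 : η ≤ 1 / 3000)
    (hH : Differentiable ℂ H)
    (hfar : ∀ z ∈ Metric.ball (1 : ℂ) (1 / 2), H z ≠ 0 ∧ ‖logDeriv H z - A‖ ≤ η * A)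
    (hsad : logDeriv H 1 = m) {c : ℝ} (hc : 0 < c) (hHc : H 1 = c) (φ : ℝ) (hφ : |φ| ≤ 1 / 8) :
    ‖H (cexp (I * φ)) * cexp (-(I * m * φ))‖ ≤ c * Real.exp (-(2 / 5 * A * φ ^ 2)) ∧
    (|φ| ≤ 3 / Real.sqrt A →
      c * (9 / 10) * Real.exp (-(56 / 100 * A * φ ^ 2)) ≤
        (H (cexp (I * φ)) * cexp (-(I * m * φ))).re) := by
  obtain ⟨ε, hε, h⟩ := rep (by linarith) hη hH hfar hsad φ hφ
  have hA0 : 0 < A := by linarith
  have hφ2 : 0 ≤ φ ^ 2 := sq_nonneg φ
  have hAφ : 0 ≤ A * φ ^ 2 := by positivity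
  have hε' : ‖ε‖ ≤ 1 / 500 * (A * φ ^ 2) := by
    refine hε.trans ?_
    have : 6 * η * A * φ ^ 2 = (6 * η) * (A * φ ^ 2) := by ring
    rw [this]
    exact mul_le_mul_of_nonneg_right (by linarith) hAφ
  have hre : (A * (cexp (I * φ) - 1 - I * φ) + ε).re = A * (Real.cos φ - 1) + ε.re := by
    rw [mul_comm I (φ : ℂ), Complex.exp_mul_I]
    simp [← Complex.ofReal_cos, ← Complex.ofReal_sin]
  have him : (A * (cexp (I * φ) - 1 - I * φ) + ε).im = A * (Real.sin φ - φ) + ε.im := by
    rw [mul_comm I (φ : ℂ), Complex.exp_mul_I]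
    simp [← Complex.ofReal_cos, ← Complex.ofReal_sin]
  have hεr := abs_le.1 ((Complex.abs_re_le_norm ε).trans hε')
  have hεi := abs_le.1 ((Complex.abs_im_le_norm ε).trans hε')
  have hφs : φ ^ 2 ≤ 1 / 64 := by
    rw [← sq_abs]
    nlinarith [abs_nonneg φ]
  have hcos1 : 1 - φ ^ 2 / 2 ≤ Real.cos φ := Real.one_sub_sq_div_two_le_cos
  have hcos2 : Real.cos φ ≤ 1 - φ ^ 2 / 2 + φ ^ 4 / 12 := by
    have h1 : |φ| ≤ 1 := by linarith
    have h2 := Real.cos_bound h1
    have h3 := abs_le.1 h2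
    have h4 : |φ| ^ 4 = φ ^ 4 := by
      rw [← abs_pow]; exact abs_of_nonneg (by positivity)
    rw [h4] at h3
    have h5 : 0 ≤ φ ^ 4 := by positivity
    linarith [h3.2]
  rw [h, hHc]
  constructor
  · rw [norm_mul, Complex.norm_real, Real.norm_eq_abs, abs_of_pos hc, Complex.norm_exp, hre]
    refine mul_le_mul_of_nonneg_left (Real.exp_le_exp.2 ?_) hc.le
    have h5 : A * (Real.cos φ - 1) ≤ A * (-(φ ^ 2 / 2) + φ ^ 4 / 12) :=
      mul_le_mul_of_nonneg_left (by linarith) hA0.le
    have h6 : φ ^ 4 ≤ φ ^ 2 / 64 := by nlinarith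
    have h7 : A * (-(φ ^ 2 / 2) + φ ^ 4 / 12) ≤ A * (-(φ ^ 2 / 2) + φ ^ 2 / 64 / 12) :=
      mul_le_mul_of_nonneg_left (by linarith) hA0.le
    nlinarith
  · intro hφ3
    rw [Complex.re_ofReal_mul, Complex.exp_re, hre, him]
    have hs0 : 0 < Real.sqrt A := Real.sqrt_pos.2 hA0
    have hsq : Real.sqrt A ^ 2 = A := Real.sq_sqrt hA0.le
    have hs100 : 100 ≤ Real.sqrt A := by
      rw [show (100 : ℝ) = Real.sqrt (100 ^ 2) by rw [Real.sqrt_sq (by norm_num)]]
      exact Real.sqrt_le_sqrt (by norm_num; linarith)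
    have h8 : A * φ ^ 2 ≤ 9 := by
      have h9 : |φ| * Real.sqrt A ≤ 3 := by rwa [le_div_iff₀ hs0] at hφ3
      have h10 : (|φ| * Real.sqrt A) ^ 2 ≤ 3 ^ 2 := pow_le_pow_left₀ (by positivity) h9 2
      rw [mul_pow, sq_abs, hsq] at h10
      linarith
    have hsin : |Real.sin φ - φ| ≤ |φ| ^ 3 / 4 := by
      have h2 := Real.sin_bound (x := φ) (by linarith)
      have h3 : Real.sin φ - φ = (Real.sin φ - (φ - φ ^ 3 / 6)) + -(φ ^ 3 / 6) := by ring
      rw [h3]
      refine (abs_add_le _ _).trans ?_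
      have h4 : |-(φ ^ 3 / 6)| = |φ| ^ 3 / 6 := by
        rw [abs_neg, abs_div, abs_pow]; norm_num
      rw [h4]
      have h5 : |φ| ^ 5 ≤ |φ| ^ 3 * (1 / 64) := by
        have h7 : |φ| ^ 5 = |φ| ^ 3 * φ ^ 2 := by
          rw [← sq_abs φ]; ring
        rw [h7]
        exact mul_le_mul_of_nonneg_left hφs (by positivity)
      have h6 : 0 ≤ |φ| ^ 3 := by positivity
      linarith
    have h11 : |A * (Real.sin φ - φ) + ε.im| ≤ 1 / 10 := by
      refine (abs_add_le _ _).trans ?_
      rw [abs_mul, abs_of_pos hA0]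
      have h2 : |φ| ≤ 3 / 100 := by
        refine hφ3.trans ?_
        exact div_le_div_of_nonneg_left (by norm_num) (by norm_num) hs100
      have h3 : A * |Real.sin φ - φ| ≤ A * (|φ| ^ 3 / 4) := mul_le_mul_of_nonneg_left hsin hA0.le
      have h4 : A * (|φ| ^ 3 / 4) = (A * φ ^ 2) * |φ| / 4 := by
        rw [← sq_abs φ]; ring
      have h5 : (A * φ ^ 2) * |φ| ≤ 9 * (3 / 100) :=
        mul_le_mul h8 h2 (abs_nonneg _) (by norm_num)
      have h6 : |ε.im| ≤ 1 / 500 * (A * φ ^ 2) := (Complex.abs_im_le_norm ε).trans hε'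
      linarith
    have h12 : 99 / 100 ≤ Real.cos (A * (Real.sin φ - φ) + ε.im) := by
      have h13 := Real.one_sub_sq_div_two_le_cos (x := A * (Real.sin φ - φ) + ε.im)
      have h14 : (A * (Real.sin φ - φ) + ε.im) ^ 2 ≤ (1 / 10) ^ 2 := by
        rw [← sq_abs]
        exact pow_le_pow_left₀ (abs_nonneg _) h11 2
      linarith
    have h15 : -(56 / 100 * A * φ ^ 2) ≤ A * (Real.cos φ - 1) + ε.re := by
      have h5 : A * (-(φ ^ 2 / 2)) ≤ A * (Real.cos φ - 1) :=
        mul_le_mul_of_nonneg_left (by linarith) hA0.le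
      linarith [hεr.1]
    have h16 := Real.exp_le_exp.2 h15
    have h17 : 0 < Real.exp (-(56 / 100 * A * φ ^ 2)) := Real.exp_pos _
    rw [mul_assoc c]
    refine mul_le_mul_of_nonneg_left ?_ hc.le
    nlinarith [Real.exp_pos (A * (Real.cos φ - 1) + ε.re)]

/-- `∫_a^b exp (-k φ) dφ ≤ exp (-k a) / k` -/
theorem int_exp_le {k a b : ℝ} (hk : 0 < k) :
    ∫ φ in a..b, Real.exp (-(k * φ)) ≤ Real.exp (-(k * a)) / k := by
  have h1 : ∀ x ∈ uIcc a b, HasDerivAt (fun x => -(Real.exp (-(k * x)) / k)) (Real.exp (-(k * x))) x := by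
    intro x _
    have h2 : HasDerivAt (fun x => -(k * x)) (-k) x := by
      have h0 := ((hasDerivAt_id x).const_mul k).neg
      exact h0.congr_deriv (by ring)
    have h3 := (h2.exp.div_const k).neg
    refine h3.congr_deriv ?_
    field_simp
  rw [intervalIntegral.integral_eq_sub_of_hasDerivAt h1
    (Continuous.intervalIntegrable (by fun_prop) _ _)]
  have h2 : 0 ≤ Real.exp (-(k * b)) / k := by positivity
  linarith

theorem main_int : ∃ A0 : ℝ, 10000 ≤ A0 ∧ ∀ {H : ℂ → ℂ} {A η m : ℝ}, A0 ≤ A → 0 ≤ η → η ≤ 1 / 3000 →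
    Differentiable ℂ H →
    (∀ z ∈ Metric.ball (1 : ℂ) (1 / 2), H z ≠ 0 ∧ ‖logDeriv H z - A‖ ≤ η * A) →
    logDeriv H 1 = m → ∀ {c : ℝ}, 0 < c → H 1 = c →
    (∀ φ : ℝ, 1 / 8 ≤ |φ| → |φ| ≤ Real.pi / 2 → ‖H (cexp (I * φ))‖ ≤ c * Real.exp (-(A / 200))) →
    0 < ∫ φ in (-(Real.pi / 2))..(Real.pi / 2), (H (cexp (I * φ)) * cexp (-(I * m * φ))).re := by
  have hlim : Tendsto (fun A : ℝ => A * Real.exp (-(A / 200))) atTop (𝓝 0) := by
    have h1 := (Real.tendsto_pow_mul_exp_neg_atTop_nhds_zero 1).comp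
      (tendsto_id.atTop_div_const (show (0 : ℝ) < 200 by norm_num))
    have h2 := h1.const_mul (200 : ℝ)
    rw [mul_zero] at h2
    refine h2.congr fun A => ?_
    simp only [Function.comp_apply, id, pow_one]
    ring_nf
  obtain ⟨A1, hA1⟩ := (hlim.eventually (gt_mem_nhds (show (0 : ℝ) < 1 / 100 by norm_num))).exists_forall_of_atTop
  refine ⟨max 10000 A1, le_max_left _ _, ?_⟩
  intro H A η m hA hη hη1 hH hfar hsad c hc hHc hout
  have hA4 : 10000 ≤ A := (le_max_left _ _).trans hA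
  have hAA1 := hA1 A ((le_max_right _ _).trans hA)
  have hA0 : 0 < A := by linarith
  have hs0 : 0 < Real.sqrt A := Real.sqrt_pos.2 hA0
  have hsq : Real.sqrt A * Real.sqrt A = A := Real.mul_self_sqrt hA0.le
  have hs100 : 100 ≤ Real.sqrt A := by
    rw [show (100 : ℝ) = Real.sqrt (100 ^ 2) by rw [Real.sqrt_sq (by norm_num)]]
    exact Real.sqrt_le_sqrt (by norm_num; linarith)
  have hcen := fun φ hφ => central hA4 hη hη1 hH hfar hsad hc hHc φ hφ
  have hpi := Real.pi_gt_three
  have hpi4 := Real.pi_lt_four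
  obtain ⟨f, hf⟩ : ∃ f : ℝ → ℝ, f = fun φ : ℝ => (H (cexp (I * φ)) * cexp (-(I * m * φ))).re := ⟨_, rfl⟩
  have hfc : Continuous f := by
    rw [hf]
    have := hH.continuous
    fun_prop
  have hfi : ∀ a b : ℝ, IntervalIntegrable f volume a b := fun a b => hfc.intervalIntegrable a b
  obtain ⟨d1, hd1⟩ : ∃ d : ℝ, d = 1 / Real.sqrt A := ⟨_, rfl⟩
  obtain ⟨d3, hd3⟩ : ∃ d : ℝ, d = 3 / Real.sqrt A := ⟨_, rfl⟩
  have hd10 : 0 < d1 := by rw [hd1]; positivity
  have hd31 : d3 = 3 * d1 := by rw [hd3, hd1]; ring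
  have hd3s : d3 ≤ 3 / 100 := by
    rw [hd3]
    exact div_le_div_of_nonneg_left (by norm_num) (by norm_num) hs100
  have hdA : A * d1 ^ 2 = 1 := by
    rw [hd1, div_pow, one_pow, sq, hsq]
    field_simp
  have hcpos : ∀ φ : ℝ, |φ| ≤ d3 → 0 ≤ f φ := by
    intro φ hφ
    have h1 := (hcen φ (by linarith)).2 (by rw [← hd3]; exact hφ)
    rw [hf]
    refine le_trans ?_ h1
    positivity
  have hcen1 : ∀ φ : ℝ, |φ| ≤ d1 → c / 2 ≤ f φ := by
    intro φ hφ
    have h1 := (hcen φ (by linarith)).2 (by rw [← hd3]; linarith)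
    rw [hf]
    refine le_trans ?_ h1
    have h2 : A * φ ^ 2 ≤ 1 := by
      rw [← hdA]
      refine mul_le_mul_of_nonneg_left ?_ hA0.le
      rw [← sq_abs φ]
      exact pow_le_pow_left₀ (abs_nonneg _) hφ 2
    have h3 : (57 / 100 : ℝ) ≤ Real.exp (-(56 / 100 * A * φ ^ 2)) := by
      have h4 : Real.exp (-(56 / 100)) ≤ Real.exp (-(56 / 100 * A * φ ^ 2)) :=
        Real.exp_le_exp.2 (by nlinarith)
      refine le_trans ?_ h4
      rw [Real.exp_neg, le_inv_comm₀ (by norm_num) (Real.exp_pos _)]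
      have h5 := Real.exp_bound' (x := 56 / 100) (by norm_num) (by norm_num) (n := 5) (by norm_num)
      refine h5.trans ?_
      simp only [Finset.sum_range_succ, Finset.sum_range_zero, Nat.factorial]
      norm_num
    nlinarith
  have hmid : ∀ φ : ℝ, d3 ≤ |φ| → |φ| ≤ Real.pi / 2 →
      -(c * (Real.exp (-(6 / 5 * Real.sqrt A * |φ|)) + Real.exp (-(A / 200)))) ≤ f φ := by
    intro φ h1 h2
    have h3 : -‖H (cexp (I * φ)) * cexp (-(I * m * φ))‖ ≤ f φ := by
      rw [hf]
      have := Complex.abs_re_le_norm (H (cexp (I * φ)) * cexp (-(I * m * φ)))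
      exact (abs_le.1 this).1
    refine le_trans ?_ h3
    rw [neg_le_neg_iff]
    rcases le_or_gt |φ| (1 / 8) with h4 | h4
    · refine (hcen φ h4).1.trans ?_
      refine mul_le_mul_of_nonneg_left ?_ hc.le
      have h5 : Real.exp (-(2 / 5 * A * φ ^ 2)) ≤ Real.exp (-(6 / 5 * Real.sqrt A * |φ|)) := by
        refine Real.exp_le_exp.2 ?_
        rw [neg_le_neg_iff, ← sq_abs φ]
        have h6 : 3 ≤ |φ| * Real.sqrt A := by
          rw [hd3, div_le_iff₀ hs0] at h1
          exact h1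
        have h7 : A * |φ| ^ 2 = (|φ| * Real.sqrt A) * (|φ| * Real.sqrt A) := by
          linear_combination (-(|φ| ^ 2)) * hsq
        have h8 : 0 ≤ |φ| * Real.sqrt A := by positivity
        nlinarith
      linarith [Real.exp_pos (-(A / 200))]
    · have h5 := hout φ h4.le h2
      rw [norm_mul]
      have h6 : ‖cexp (-(I * m * φ))‖ = 1 := by
        rw [Complex.norm_exp]
        simp
      rw [h6, mul_one]
      refine h5.trans (mul_le_mul_of_nonneg_left ?_ hc.le)
      linarith [Real.exp_pos (-(6 / 5 * Real.sqrt A * |φ|))]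
  have hE : Real.exp (-(A / 200)) ≤ d1 / 100 := by
    have h1 : A * Real.exp (-(A / 200)) ≤ 1 / 100 := hAA1.le
    have h2 : 1 ≤ A * d1 := by
      have h3 : A * d1 = Real.sqrt A := by
        rw [hd1, mul_one_div, div_eq_iff hs0.ne', hsq]
      rw [h3]; linarith
    have h4 : 0 < Real.exp (-(A / 200)) := Real.exp_pos _
    have h5 : A * Real.exp (-(A / 200)) * d1 ≤ 1 / 100 * d1 := mul_le_mul_of_nonneg_right h1 hd10.le
    nlinarith
  -- the tail
  have htail : -(c * (d1 / 10)) ≤ ∫ φ in d3..(Real.pi / 2), f φ := by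
    have h1 : ∫ φ in d3..(Real.pi / 2), -(c * (Real.exp (-(6 / 5 * Real.sqrt A * φ)) +
        Real.exp (-(A / 200)))) ≤ ∫ φ in d3..(Real.pi / 2), f φ := by
      refine intervalIntegral.integral_mono_on (by linarith)
        (Continuous.intervalIntegrable (by fun_prop) _ _) (hfi _ _) fun φ hφ => ?_
      have h2 : 0 ≤ φ := by linarith [hφ.1]
      have := hmid φ (by rw [abs_of_nonneg h2]; exact hφ.1) (by rw [abs_of_nonneg h2]; exact hφ.2)
      rwa [abs_of_nonneg h2] at this
    refine le_trans ?_ h1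
    rw [intervalIntegral.integral_neg, neg_le_neg_iff, intervalIntegral.integral_const_mul]
    refine mul_le_mul_of_nonneg_left ?_ hc.le
    rw [intervalIntegral.integral_add (Continuous.intervalIntegrable (by fun_prop) _ _)
      (Continuous.intervalIntegrable (by fun_prop) _ _), intervalIntegral.integral_const]
    have h2 := int_exp_le (k := 6 / 5 * Real.sqrt A) (a := d3) (b := Real.pi / 2) (by positivity)
    have h3 : Real.exp (-(6 / 5 * Real.sqrt A * d3)) / (6 / 5 * Real.sqrt A) ≤ d1 / 20 := by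
      have h4 : 6 / 5 * Real.sqrt A * d3 = 18 / 5 := by
        rw [hd3]; field_simp; norm_num
      rw [h4]
      have h5 : Real.exp (-(18 / 5)) ≤ 3 / 50 := by
        rw [Real.exp_neg]
        have h6 : (50 / 3 : ℝ) ≤ Real.exp (18 / 5) := by
          have h7 := Real.sum_le_exp_of_nonneg (show (0 : ℝ) ≤ 18 / 5 by norm_num) 5
          refine le_trans ?_ h7
          simp only [Finset.sum_range_succ, Finset.sum_range_zero, Nat.factorial]
          norm_num
        rw [show (3 / 50 : ℝ) = (50 / 3)⁻¹ by norm_num]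
        exact inv_anti₀ (by norm_num) h6
      calc Real.exp (-(18 / 5)) / (6 / 5 * Real.sqrt A) ≤ 3 / 50 / (6 / 5 * Real.sqrt A) := by gcongr
        _ = d1 / 20 := by rw [hd1]; field_simp; norm_num
    have h6 : (Real.pi / 2 - d3) • Real.exp (-(A / 200)) ≤ d1 / 50 := by
      rw [smul_eq_mul]
      have h7 : 0 < Real.exp (-(A / 200)) := Real.exp_pos _
      nlinarith
    linarith
  have htail' : -(c * (d1 / 10)) ≤ ∫ φ in (-(Real.pi / 2))..(-d3), f φ := by
    have h1 : ∫ φ in (-(Real.pi / 2))..(-d3), f φ = ∫ φ in d3..(Real.pi / 2), f (-φ) := by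
      rw [intervalIntegral.integral_comp_neg]
    rw [h1]
    have h1 : ∫ φ in d3..(Real.pi / 2), -(c * (Real.exp (-(6 / 5 * Real.sqrt A * φ)) +
        Real.exp (-(A / 200)))) ≤ ∫ φ in d3..(Real.pi / 2), f (-φ) := by
      refine intervalIntegral.integral_mono_on (by linarith)
        (Continuous.intervalIntegrable (by fun_prop) _ _) ((hfc.comp continuous_neg).intervalIntegrable _ _)
        fun φ hφ => ?_
      have h2 : 0 ≤ φ := by linarith [hφ.1]
      have := hmid (-φ) (by rw [abs_neg, abs_of_nonneg h2]; exact hφ.1)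
        (by rw [abs_neg, abs_of_nonneg h2]; exact hφ.2)
      rwa [abs_neg, abs_of_nonneg h2] at this
    refine le_trans ?_ h1
    rw [intervalIntegral.integral_neg, neg_le_neg_iff, intervalIntegral.integral_const_mul]
    refine mul_le_mul_of_nonneg_left ?_ hc.le
    rw [intervalIntegral.integral_add (Continuous.intervalIntegrable (by fun_prop) _ _)
      (Continuous.intervalIntegrable (by fun_prop) _ _), intervalIntegral.integral_const]
    have h2 := int_exp_le (k := 6 / 5 * Real.sqrt A) (a := d3) (b := Real.pi / 2) (by positivity)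
    have h3 : Real.exp (-(6 / 5 * Real.sqrt A * d3)) / (6 / 5 * Real.sqrt A) ≤ d1 / 20 := by
      have h4 : 6 / 5 * Real.sqrt A * d3 = 18 / 5 := by
        rw [hd3]; field_simp; norm_num
      rw [h4]
      have h5 : Real.exp (-(18 / 5)) ≤ 3 / 50 := by
        rw [Real.exp_neg]
        have h6 : (50 / 3 : ℝ) ≤ Real.exp (18 / 5) := by
          have h7 := Real.sum_le_exp_of_nonneg (show (0 : ℝ) ≤ 18 / 5 by norm_num) 5
          refine le_trans ?_ h7
          simp only [Finset.sum_range_succ, Finset.sum_range_zero, Nat.factorial]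
          norm_num
        rw [show (3 / 50 : ℝ) = (50 / 3)⁻¹ by norm_num]
        exact inv_anti₀ (by norm_num) h6
      calc Real.exp (-(18 / 5)) / (6 / 5 * Real.sqrt A) ≤ 3 / 50 / (6 / 5 * Real.sqrt A) := by gcongr
        _ = d1 / 20 := by rw [hd1]; field_simp; norm_num
    have h6 : (Real.pi / 2 - d3) • Real.exp (-(A / 200)) ≤ d1 / 50 := by
      rw [smul_eq_mul]
      have h7 : 0 < Real.exp (-(A / 200)) := Real.exp_pos _
      nlinarith
    linarith
  -- the centre
  have h1 : c * d1 ≤ ∫ φ in (-d1)..d1, f φ := by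
    have h2 : ∫ φ in (-d1)..d1, (c / 2) ≤ ∫ φ in (-d1)..d1, f φ :=
      intervalIntegral.integral_mono_on (by linarith) (by simp) (hfi _ _)
        fun φ hφ => hcen1 φ (abs_le.2 ⟨hφ.1, hφ.2⟩)
    refine le_trans (le_of_eq ?_) h2
    rw [intervalIntegral.integral_const, smul_eq_mul]
    ring
  have h2 : 0 ≤ ∫ φ in (-d3)..(-d1), f φ :=
    intervalIntegral.integral_nonneg (by linarith) fun φ hφ => hcpos φ (by
      rw [abs_le]; constructor <;> linarith [hφ.1, hφ.2])
  have h3 : 0 ≤ ∫ φ in d1..d3, f φ :=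
    intervalIntegral.integral_nonneg (by linarith) fun φ hφ => hcpos φ (by
      rw [abs_le]; constructor <;> linarith [hφ.1, hφ.2])
  have h4 : ∫ φ in (-(Real.pi / 2))..(Real.pi / 2), f φ = (∫ φ in (-(Real.pi / 2))..(-d3), f φ) +
      ((∫ φ in (-d3)..(-d1), f φ) + ((∫ φ in (-d1)..d1, f φ) + ((∫ φ in d1..d3, f φ) +
      ∫ φ in d3..(Real.pi / 2), f φ))) := by
    rw [intervalIntegral.integral_add_adjacent_intervals (hfi _ _) (hfi _ _),
      intervalIntegral.integral_add_adjacent_intervals (hfi _ _) (hfi _ _),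
      intervalIntegral.integral_add_adjacent_intervals (hfi _ _) (hfi _ _),
      intervalIntegral.integral_add_adjacent_intervals (hfi _ _) (hfi _ _)]
  have h5 : 0 < c * d1 := mul_pos hc hd10
  rw [hf] at h4 h1 h2 h3 htail htail'
  rw [h4]
  linarith

end Pool.Agent.K3h80.LAG
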